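import Pool.Agent.H54.WB.TargetsB

/-!
# Row DWN of the board wdb_modules: downward pumping
-/

set_option autoImplicit false

namespace Pool.Agent.H4.WB

open Pool.Agent.H54.WB
open Pool.Agent.H8.VR
open Pool.Agent.H8.MP (Der)

section
variable {N Q : Type}

/-- the size can be pumped down -/
def Pump (H : Gram N Q) (B P : ℕ) (s : N) (n : ℕ) : Prop :=
  ∃ x, x < n ∧ n ≤ x + B ∧ x ≡ n [MOD P] ∧ Der H s x

/-- a chain of different pairs of sorts and residues -/
def Inv (H : Gram N Q) (P : ℕ) (l : List (N × Fin P)) (s : N) (n : ℕ) : Prop :=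
  l ≠ [] ∧ l.Nodup ∧ 2 * n ≤ 2 ^ l.length ∧ Der H s n ∧
    ∀ p ∈ l, ∃ x, Der H p.1 x ∧ x % P = p.2 ∧ x ≤ n ∧ ∀ y, Der H p.1 y → Der H s (y + (n - x))

theorem step {H : Gram N Q} {B P : ℕ} (hP : 0 < P)
    (hB : ∀ l : List (N × Fin P), l.Nodup → 2 ^ l.length ≤ B) {s t u : N} {a b : ℕ}
    (l : List (N × Fin P)) (h : Inv H P l s a) (hb : Der H t b) (hba : 2 * b ≤ 2 ^ l.length)
    (hop : ∀ x y, Der H s x → Der H t y → Der H u (x + y)) :
    Pump H B P u (a + b) ∨ ∃ l, Inv H P l u (a + b) := by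
  classical
  obtain ⟨h1, h2, h3, h4, h5⟩ := h
  have hpos := hb.pos
  have hab := hop a b h4 hb
  by_cases hu : (u, (⟨(a + b) % P, Nat.mod_lt _ hP⟩ : Fin P)) ∈ l
  · left
    obtain ⟨x, hx1, hx2, hx3, -⟩ := h5 _ hu
    have := hB l h2
    exact ⟨x, by omega, by omega, hx2, hx1⟩
  · right
    refine ⟨(u, ⟨(a + b) % P, Nat.mod_lt _ hP⟩) :: l, by simp, List.nodup_cons.2 ⟨hu, h2⟩, ?_,
      hab, ?_⟩
    · rw [List.length_cons, pow_succ]
      omega
    · intro p hp
      rcases List.mem_cons.1 hp with rfl | hp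
      · exact ⟨a + b, hab, rfl, le_refl _, fun y hy => by simpa using hy⟩
      · obtain ⟨x, hx1, hx2, hx3, hx4⟩ := h5 p hp
        refine ⟨x, hx1, hx2, by omega, fun y hy => ?_⟩
        have h6 := hop _ _ (hx4 y hy) hb
        have e : y + (a + b - x) = y + (a - x) + b := by omega
        rw [e]
        exact h6

theorem inv {H : Gram N Q} {B P : ℕ} (hP : 0 < P)
    (hB : ∀ l : List (N × Fin P), l.Nodup → 2 ^ l.length ≤ B) {s : N} {n : ℕ} (h : Der H s n) :
    Pump H B P s n ∨ ∃ l, Inv H P l s n := by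
  induction h with
  | pt x hx =>
    right
    refine ⟨[(x.s, ⟨1 % P, Nat.mod_lt _ hP⟩)], by simp, by simp, by simp, Der.pt x hx, ?_⟩
    intro p hp
    rw [List.mem_singleton] at hp
    subst hp
    exact ⟨1, Der.pt x hx, rfl, le_refl _, fun y hy => by simpa using hy⟩
  | op o ho a b ha hb ih1 ih2 =>
    rcases ih1 with ⟨x, hx1, hx2, hx3, hx4⟩ | ⟨l1, h1⟩
    · left
      exact ⟨x + b, by omega, by omega, hx3.add_right b, Der.op o ho _ _ hx4 hb⟩
    rcases ih2 with ⟨x, hx1, hx2, hx3, hx4⟩ | ⟨l2, h2⟩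
    · left
      exact ⟨a + x, by omega, by omega, hx3.add_left a, Der.op o ho _ _ ha hx4⟩
    rcases le_total l2.length l1.length with h | h
    · refine step hP hB l1 h1 hb ?_ (fun x y hx hy => Der.op o ho x y hx hy)
      exact h2.2.2.1.trans (Nat.pow_le_pow_right (by norm_num) h)
    · have h3 := step (u := o.u) hP hB l2 h2 ha
        (h1.2.2.1.trans (Nat.pow_le_pow_right (by norm_num) h))
        (fun x y hx hy => by
          rw [Nat.add_comm]
          exact Der.op o ho y x hy hx)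
      rw [Nat.add_comm]
      exact h3

end

theorem pf_DWN : T_DWN := by
  classical
  intro N Q _ H T P hT hP s n h hn
  haveI := Fintype.ofFinite N
  have hB : ∀ l : List (N × Fin P), l.Nodup → 2 ^ l.length ≤ 2 ^ (T * P) := by
    intro l hl
    refine Nat.pow_le_pow_right (by norm_num) (hl.length_le_card.trans ?_)
    rw [Fintype.card_prod, Fintype.card_fin, ← Nat.card_eq_fintype_card]
    exact Nat.mul_le_mul_right _ hT
  rcases inv hP hB h with ⟨x, h1, h2, h3, h4⟩ | ⟨l, h1, h2, h3, h4, h5⟩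
  · exact ⟨x, h1, h2, h3, h4⟩
  · have := hB l h2
    omega

end Pool.Agent.H4.WB
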